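import Pool.Agent.H25.UltraFree

set_option autoImplicit false

namespace Pool.Agent.Results.MP_0df558_gt.Beta

open Pool.Agent.H25.UltraFree

/-- A compact Hausdorff space `X` (so also a Lindelof Sigma-space) such that no separating family
of cozero subsets of `C_p(X)` is point-countable, or weakly sigma-point-finite. -/
theorem result : ∃ (X : Type) (_ : TopologicalSpace X), CompactSpace X ∧ T2Space X ∧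
    (∃ 𝒞 ℱ : Set (Set X), (∀ C ∈ 𝒞, IsCompact C) ∧ ⋃₀ 𝒞 = Set.univ ∧ ℱ.Countable ∧
      ∀ C ∈ 𝒞, ∀ U, IsOpen U → C ⊆ U → ∃ F ∈ ℱ, C ⊆ F ∧ F ⊆ U) ∧
    ∀ 𝒰 : Set (Set {f : X → ℝ // Continuous f}),
      (∀ U ∈ 𝒰, ∃ g : {f : X → ℝ // Continuous f} → ℝ, Continuous g ∧ U = {z | g z ≠ 0}) →
      (∀ z w, z ≠ w → ∃ U ∈ 𝒰, (z ∈ U ∧ w ∉ U) ∨ (w ∈ U ∧ z ∉ U)) →
      (¬ ∀ z, {U | U ∈ 𝒰 ∧ z ∈ U}.Countable) ∧
      ¬ ∃ 𝒱 : ℕ → Set (Set {f : X → ℝ // Continuous f}), (∀ n, 𝒱 n ⊆ 𝒰) ∧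
        ∀ z, 𝒰 = ⋃ n ∈ {n | {U | U ∈ 𝒱 n ∧ z ∈ U}.Finite}, 𝒱 n := by
  refine ⟨Ultrafilter ℝ, inferInstance, inferInstance, inferInstance,
    ⟨{Set.univ}, {Set.univ}, ?_, by simp, Set.countable_singleton _, ?_⟩, fun 𝒰 h1 h2 => ?_⟩
  · rintro _ rfl
    exact isCompact_univ
  · rintro _ rfl U - h
    exact ⟨_, rfl, subset_rfl, h⟩
  have key : ¬ ∀ z, {U | U ∈ 𝒰 ∧ z ∈ U}.Countable := no_sep Set.not_countable_univ 𝒰 h1 h2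
  refine ⟨key, fun ⟨𝒱, _, h⟩ => key fun z => ?_⟩
  refine ((Set.to_countable {n | {U | U ∈ 𝒱 n ∧ z ∈ U}.Finite}).biUnion
    (t := fun n _ => {U | U ∈ 𝒱 n ∧ z ∈ U}) fun n hn => Set.Finite.countable hn).mono ?_
  rintro U ⟨hU, hz⟩
  rw [h z] at hU
  obtain ⟨n, hn, hU⟩ := Set.mem_iUnion₂.1 hU
  exact Set.mem_iUnion₂.2 ⟨n, hn, hU, hz⟩

end Pool.Agent.Results.MP_0df558_gt.Beta
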